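import Pool.Agent.MP_3ee8cb_gt.DQ.Spec
import Pool.Agent.MP_3ee8cb_gt.DZH.Jac

/-! Sharp Riccati bounds for Jacobi fields that vanish at time one. -/

namespace Pool.Agent.MP_3ee8cb_gt.DQH

open DN (Dim dm)

variable [Dim]

open DN DZ DZH Set Filter Topology Real
open scoped RealInnerProductSpace

variable {m : MF}

theorem ksy (hj : m.Jac) (y a c v : V) : ⟪m.K y a v v, c⟫ = ⟪m.K y c v v, a⟫ := by
  rw [hj.pK y a v v c, hj.aK y v c a, inner_neg_left, hj.sK, neg_neg, real_inner_comm]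

theorem jlow (ho : m.OK) (hj : m.Jac) (hu : m.Up 1) (z ξ : V × V) (a3 : m.J z ξ 1 = 0)
    (he : ⟪m.hor z ξ, z.2⟫ = 0) : ‖z.2‖ * ‖m.hor z ξ‖ ^ 2 ≤ -⟪m.ver z ξ, m.hor z ξ⟫ := by
  have p0 := DNWI.J_vel ho hj z ξ 1
  rw [a3, he, inner_zero_left, zero_add, one_mul] at p0
  have pj : ∀ t, ⟪m.J z ξ t, (m.Z t z).2⟫ = 0 := fun t => by
    rw [DNWI.J_vel ho hj, ← p0, he, mul_zero, add_zero]
  have key := DNTR.le_of_der (c := 0) (t := 1) (fun t =>
    ((cov_inner ho z (hj.d1 z ξ t) (hj.d2 z ξ t)).add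
      ((cov_sq ho z (hj.d1 z ξ t)).const_mul ‖z.2‖)).neg) (fun t _ => by
      have b1 := hu (m.Z t z).1 (m.J z ξ t) (m.Z t z).2
      rw [pj t, hj.norm] at b1
      have b2 := sq_nonneg ‖m.J' z ξ t + ‖z.2‖ • m.J z ξ t‖
      rw [norm_add_sq_real, real_inner_smul_right, norm_smul, mul_pow, Real.norm_eq_abs,
        sq_abs, real_inner_comm] at b2
      rw [real_inner_self_eq_norm_sq, inner_neg_right, real_inner_comm _ (m.J z ξ t)]
      linarith) (right_mem_Icc.2 zero_le_one)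
  simp only [Pi.add_apply, Pi.neg_apply, a3, inner_zero_left, norm_zero, DNWI.J_zero ho,
    DNWI.J'_zero ho] at key
  rw [real_inner_comm]
  linarith

theorem jupp (ho : m.OK) (hj : m.Jac) (hu : m.Up 0) {b : ℝ} (hb : 0 ≤ b) (hd : m.Dn (b ^ 2))
    (z ξ : V × V) (a3 : m.J z ξ 1 = 0) : -⟪m.ver z ξ, m.hor z ξ⟫ * sinh (b * ‖z.2‖) ≤
      b * ‖z.2‖ * cosh (b * ‖z.2‖) * ‖m.hor z ξ‖ ^ 2 := by
  obtain ⟨e, a1⟩ : ∃ e, m.hor z ξ = e := ⟨_, rfl⟩
  obtain ⟨c, hc⟩ : ∃ c, c = b * ‖z.2‖ := ⟨_, rfl⟩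
  rw [← hc, a1]
  have c0 : 0 ≤ c := by rw [hc]; positivity
  obtain ⟨O, O0, -, O1⟩ := hj.par z
  have dO : ∀ t, HasDerivAt (fun s => O s e) (0 - m.w z t (O t e)) t := fun t =>
    (O1 e t).congr_deriv (zero_sub _).symm
  have a4 : ∀ t : ℝ, HasDerivAt (fun s : ℝ => c * (1 - s)) (-c) t := fun t => by
    simpa using ((hasDerivAt_id t).const_sub 1).const_mul c
  have key := DNTR.le_of_der (c := 0) (t := 1) (fun t =>
    ((((a4 t).sinh.mul (cov_inner ho z (hj.d2 z ξ t) (dO t))).const_mul (2 * sinh c)).sub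
      ((cov_inner ho z (hj.d2 z ξ t) (hj.d1 z ξ t)).const_mul (sinh c ^ 2))).add
        (((a4 t).cosh.mul (a4 t).sinh).const_mul (c * ‖e‖ ^ 2))) (fun t _ => by
      obtain ⟨L, hL⟩ := hj.lK (m.Z t z).1
      have b1 := hu (m.Z t z).1 (sinh c • m.J z ξ t - sinh (c * (1 - t)) • O t e) (m.Z t z).2
      have b2 := hd (m.Z t z).1 (O t e) (m.Z t z).2
      have b3 := ksy hj (m.Z t z).1 (O t e) (m.J z ξ t) (m.Z t z).2
      have b4 := sq_nonneg ‖sinh c • m.J' z ξ t + (c * cosh (c * (1 - t))) • O t e‖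
      rw [(O t).norm_map, hj.norm] at b2
      have b5 : -⟪m.K (m.Z t z).1 (O t e) (m.Z t z).2 (m.Z t z).2, O t e⟫ ≤ c ^ 2 * ‖e‖ ^ 2 := by
        rw [hc]
        nlinarith [mul_nonneg (sq_nonneg b) (sq_nonneg ⟪O t e, (m.Z t z).2⟫)]
      rw [norm_add_sq_real, real_inner_smul_right, real_inner_smul_left, norm_smul, norm_smul,
        mul_pow, mul_pow, Real.norm_eq_abs, Real.norm_eq_abs, sq_abs, sq_abs,
        (O t).norm_map] at b4
      rw [zero_mul, hL] at b1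
      simp only [map_sub, map_smul, sub_apply, smul_apply, inner_sub_left, inner_sub_right,
        real_inner_smul_left, real_inner_smul_right, ← hL] at b1
      rw [b3] at b1
      simp only [inner_zero_right, inner_neg_left, add_zero, real_inner_self_eq_norm_sq]
      nlinarith [mul_le_mul_of_nonneg_left b5 (sq_nonneg (sinh (c * (1 - t))))])
    (right_mem_Icc.2 zero_le_one)
  simp only [Pi.add_apply, Pi.sub_apply, Pi.mul_apply, sub_self, mul_zero, sinh_zero, a3,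
    inner_zero_right, zero_mul, add_zero, sub_zero, mul_one, DNWI.J_zero ho,
    DNWI.J'_zero ho, a1, O0] at key
  rcases c0.eq_or_lt with rfl | c1
  · simp
  · exact le_of_mul_le_mul_left (by nlinarith) (sinh_pos_iff.2 c1)

omit [Dim] in
theorem coth_le {c : ℝ} (h : 0 ≤ c) : c * cosh c ≤ (c + 1) * sinh c := by
  have h1 := cosh_sub_sinh c
  have h2 := self_le_sinh_iff.2 h
  have h3 := exp_le_one_iff.2 (neg_nonpos.2 h)
  nlinarith [mul_le_mul_of_nonneg_left h3 h]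

theorem sJ2 : DQ.SJ2 := fun m b ho hj hb hu hd z ξ hz a3 he => by
  refine ⟨jlow ho hj hu z ξ a3 he, ?_⟩
  have u0 : m.Up 0 := fun y a c => by
    have h1 := hu y a c
    have h2 := sq_le_sq' (neg_le_of_abs_le (abs_real_inner_le_norm a c))
      (real_inner_le_norm a c)
    rw [mul_pow] at h2
    linarith
  have h1 := jupp ho hj u0 (by linarith) hd z ξ a3
  have c1 : 0 < b * ‖z.2‖ := mul_pos (by linarith) (norm_pos_iff.2 hz)
  have h2 := mul_le_mul_of_nonneg_right (coth_le c1.le) (sq_nonneg ‖m.hor z ξ‖)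
  exact le_of_mul_le_mul_right (by linarith) (sinh_pos_iff.2 c1)

end Pool.Agent.MP_3ee8cb_gt.DQH
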